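import Pool.Agent.HRG.Final

/-!
# The seventh inclusion `HRC_exp(n) ⊆ HRC_∞(n)` is strict for `n = 2` (MP_21018d_co, Q1)

`e : Prop` says whether the empty graph counts as connected; the theorem holds for every `e`.
-/

set_option autoImplicit false

namespace Pool.Agent.Results.MP_21018d_co.SeventhLevelTwo

open Pool.HRG

theorem result (e : Prop) :
    HRCexp e 2 ⊂ HRCinf e 2 ∧ ![6, 2] ∈ HRCinf e 2 ∧ ![6, 2] ∉ HRCexp e 2 :=
  seventh_two e

end Pool.Agent.Results.MP_21018d_co.SeventhLevelTwo
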