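import Pool.Agent.HRG.Final

/-!
# Six of the seven inclusions between the sets of highly regular parameters are strict for
every `n ≥ 2` (MP_21018d_co, Q1)

`e : Prop` says whether the empty graph counts as connected; the theorem holds for every `e`.
-/

set_option autoImplicit false

namespace Pool.Agent.Results.MP_21018d_co.SixStrict

open Pool.HRG

theorem result (e : Prop) (n : ℕ) (hn : 2 ≤ n) :
    (HRCinf e n ⊂ HRC e n ∧ HRinf e n ⊂ HR e n ∧ HRexp n ⊂ HRinf e n ∧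
      HRC e n ⊂ HR e n ∧ HRCinf e n ⊂ HRinf e n ∧ HRCexp e n ⊂ HRexp n) ∧
    (∃ a : Fin n → ℕ, (∀ i, 0 < a i) ∧ a ∈ HRC e n ∧ a ∉ HRinf e n) ∧
    (∃ a : Fin n → ℕ, (∀ i, 0 < a i) ∧ a ∈ HRexp n ∧ a ∉ HRC e n) :=
  six_strict e n hn

end Pool.Agent.Results.MP_21018d_co.SixStrict
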